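import Mathlib
import Pool.Agent.Helper951.WheelCE

/-!
# Graphs without large wheels: the conjectured bound fails for `k = 2`

Let `JM (2r) (2r)` be the join of two perfect matchings on `2r` vertices each. The neighbourhood of
every vertex induces `2r / 2` triangles with a common vertex, and such a graph contains no cycle of
length at least four; so `JM (2r) (2r)` contains no wheel on five or more vertices. The graph is
`(2r+1)`-regular with `m = 2r (2r+1)` edges and has spectral radius `2r+1`, which is larger than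
`(1 + √(4m-3)) / 2`.
-/

set_option autoImplicit false

namespace Pool.Agent.Results.MP_1392dc_co.LargeWheels

open Finset Pool.Agent.Helper951.Defs Pool.Agent.Helper951.Spec Pool.Agent.Helper951.WheelCE

/-- three consecutive vertices of a cycle in the neighbourhood of a vertex `c` of `JM s t` are not
all on the other side -/
lemma three {s t : ℕ} (c x y z : Fin s ⊕ Fin t) (hx : (JM s t).Adj c x) (hy : (JM s t).Adj c y)
    (hz : (JM s t).Adj c z) (hxy : (JM s t).Adj x y) (hyz : (JM s t).Adj y z) (hne : x ≠ z) :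
    x.isLeft = c.isLeft ∨ y.isLeft = c.isLeft ∨ z.isLeft = c.isLeft := by
  rcases c with c | c <;> rcases x with x | x <;> rcases y with y | y <;> rcases z with z | z <;>
    simp only [JM_ll, JM_rr, ne_eq, Sum.inl.injEq, Sum.inr.injEq, Fin.ext_iff, Sum.isLeft_inl,
      Sum.isLeft_inr] at * <;> simp <;> omega

/-- the neighbour on the own side is unique -/
lemma uniq {s t : ℕ} (c x y : Fin s ⊕ Fin t) (hx : (JM s t).Adj c x) (hy : (JM s t).Adj c y)
    (h1 : x.isLeft = c.isLeft) (h2 : y.isLeft = c.isLeft) : x = y := by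
  rcases c with c | c <;> rcases x with x | x <;> rcases y with y | y <;>
    simp only [JM_ll, JM_rr, ne_eq, Sum.inl.injEq, Sum.inr.injEq, Fin.ext_iff, Sum.isLeft_inl,
      Sum.isLeft_inr, reduceCtorEq] at * <;> omega

/-- The join of two matchings contains no wheel on five or more vertices. -/
theorem JM_wheel_free (s t w : ℕ) (hw : 5 ≤ w) : ¬ (wheel w).IsContained (JM s t) := by
  obtain ⟨n, rfl⟩ : ∃ n, w = n + 5 := ⟨w - 5, by omega⟩
  rintro ⟨f⟩
  have hinj := f.injective
  have hadj : ∀ i j, (wheel (n + 5)).Adj i j → (JM s t).Adj (f.toHom i) (f.toHom j) :=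
    fun i j h => f.toHom.map_adj h
  generalize f.toHom = g at hinj hadj
  let c : Fin s ⊕ Fin t := g (Sum.inl 0)
  let p : Fin (n + 4) → Fin s ⊕ Fin t := fun i => g (Sum.inr i)
  have h0 : ∀ i, (JM s t).Adj c (p i) := fun i => hadj _ _ trivial
  have h1 : ∀ i, (JM s t).Adj (p i) (p (i + 1)) := by
    intro i
    apply hadj
    change (SimpleGraph.cycleGraph (n + 4)).Adj i (i + 1)
    rw [SimpleGraph.cycleGraph_adj]
    right
    exact add_sub_cancel_left i 1
  have hp : Function.Injective p := fun i j h => Sum.inr_injective (hinj h)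
  have v1 : ((1 : Fin (n + 4)) : ℕ) = 1 := Nat.mod_eq_of_lt (show 1 < n + 4 by omega)
  have v2 : ((1 + 1 : Fin (n + 4)) : ℕ) = 2 := by
    rw [Fin.val_add, v1]; exact Nat.mod_eq_of_lt (by omega)
  have v3 : ((1 + 1 + 1 : Fin (n + 4)) : ℕ) = 3 := by
    rw [Fin.val_add, v2, v1]; exact Nat.mod_eq_of_lt (by omega)
  have e1 : (1 : Fin (n + 4)) ≠ 0 := fun h => by rw [h] at v1; simp at v1
  have e2 : (1 + 1 : Fin (n + 4)) ≠ 0 := fun h => by rw [h] at v2; simp at v2
  have e3 : (1 + 1 + 1 : Fin (n + 4)) ≠ 0 := fun h => by rw [h] at v3; simp at v3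
  have key : ∀ i, (p i).isLeft = c.isLeft ∨ (p (i + 1)).isLeft = c.isLeft ∨
      (p (i + 1 + 1)).isLeft = c.isLeft := by
    intro i
    refine three c _ _ _ (h0 _) (h0 _) (h0 _) (h1 _) (h1 _) ?_
    intro h
    have h2 := hp h
    rw [add_assoc] at h2
    exact e2 (left_eq_add.1 h2)
  obtain ⟨j, hj⟩ : ∃ j, (p j).isLeft = c.isLeft := by
    rcases key 0 with h | h | h
    · exact ⟨_, h⟩
    · exact ⟨_, h⟩
    · exact ⟨_, h⟩
  rcases key (j + 1) with h | h | h
  · have := hp (uniq c _ _ (h0 _) (h0 _) h hj)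
    exact e1 (add_eq_left.1 this)
  · have := hp (uniq c _ _ (h0 _) (h0 _) h hj)
    rw [add_assoc] at this
    exact e2 (add_eq_left.1 this)
  · have := hp (uniq c _ _ (h0 _) (h0 _) h hj)
    rw [add_assoc, add_assoc, ← add_assoc (1 : Fin (n + 4))] at this
    exact e3 (add_eq_left.1 this)

/-- the spectral radius of the join of two perfect matchings of the same size -/
theorem JM_specRad (r : ℕ) (hr : 1 ≤ r) : ((2 * r + 1 : ℕ) : ℝ) ≤ specRad (JM (2 * r) (2 * r)) := by
  have : Nonempty (Fin (2 * r) ⊕ Fin (2 * r)) := ⟨Sum.inl ⟨0, by omega⟩⟩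
  apply le_specRad_of_sub _ (fun _ => 1) (fun _ => zero_le_one) ⟨Sum.inl ⟨0, by omega⟩, zero_lt_one⟩
  rintro (i | i)
  · rw [Finset.sum_const, SimpleGraph.card_neighborFinset_eq_degree, JM_deg_l, if_pos (by
      have := i.isLt; omega)]
    simp [add_comm]
  · rw [Finset.sum_const, SimpleGraph.card_neighborFinset_eq_degree, JM_deg_r, if_pos (by
      have := i.isLt; omega)]
    simp

/-- For `k = 2` the conjectured bound `λ(G) ≤ (k - 1 + √(4m - k² + 1)) / 2` for graphs with `m`
edges that contain no wheel on `2k + 1` or more vertices fails for infinitely many `m`. -/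
theorem result : ∀ m₀ : ℕ, ∃ m : ℕ, m₀ ≤ m ∧ ∃ (V : Type) (_ : Fintype V) (G : SimpleGraph V),
    G.edgeSet.ncard = m ∧ (∀ v, ∃ w, G.Adj v w) ∧
    (∀ t : ℕ, 2 * 2 + 1 ≤ t → ¬ (wheel t).IsContained G) ∧
    (((2 : ℝ) - 1) + Real.sqrt (4 * m - 2 ^ 2 + 1)) / 2 < specRad G := by
  intro m₀
  obtain ⟨r, hr⟩ : ∃ r, r = m₀ + 1 := ⟨_, rfl⟩
  refine ⟨2 * r * (2 * r + 1), by nlinarith, Fin (2 * r) ⊕ Fin (2 * r), inferInstance,
    JM (2 * r) (2 * r), ?_, ?_, fun t ht => JM_wheel_free _ _ t ht, ?_⟩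
  · rw [Set.ncard_eq_toFinset_card', ← JM_edges_even r]
    rfl
  · rintro (i | j)
    · exact ⟨Sum.inr ⟨0, by omega⟩, JM_lr _ _⟩
    · exact ⟨Sum.inl ⟨0, by omega⟩, JM_rl _ _⟩
  · refine lt_of_lt_of_le ?_ (JM_specRad r (by omega))
    have hr0 : (0 : ℝ) ≤ r := Nat.cast_nonneg r
    have h1 : Real.sqrt (4 * ((2 * r * (2 * r + 1) : ℕ) : ℝ) - 2 ^ 2 + 1) < 4 * r + 1 := by
      rw [Real.sqrt_lt' (by positivity)]
      push_cast
      nlinarith
    push_cast at h1 ⊢
    obtain ⟨S, hS⟩ : ∃ S, S = Real.sqrt (4 * (2 * (r : ℝ) * (2 * r + 1)) - 2 ^ 2 + 1) := ⟨_, rfl⟩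
    rw [← hS] at h1 ⊢
    linarith

end Pool.Agent.Results.MP_1392dc_co.LargeWheels
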